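import Mathlib

/-! A closed unital subalgebra of a locally Stein Banach algebra that is not locally Stein. -/

namespace Pool.Agent.Results.MP_591444_an.NotStein

open WeakDual Topology Filter Metric Set

/-- `O x f` (read: `f` is holomorphic near `x`) is the structure of a reduced complex space on `X`:
locally `X` is an analytic subset of an open subset of `ℂ^n`, with the restrictions of
holomorphic germs. -/
def IsReduced {X : Type} [TopologicalSpace X] (O : X → (X → ℂ) → Prop) : Prop :=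
  ∀ y : X, ∃ U : Set X, IsOpen U ∧ y ∈ U ∧ ∃ (n k : ℕ) (φ : X → Fin n → ℂ) (Ω : Set (Fin n → ℂ))
    (g : Fin k → (Fin n → ℂ) → ℂ), IsOpen Ω ∧ (∀ i, AnalyticOnNhd ℂ (g i) Ω) ∧
    IsEmbedding (U.domRestrict φ) ∧ φ '' U = {z ∈ Ω | ∀ i, g i z = 0} ∧
    ∀ v ∈ U, ∀ f, O v f ↔ ∃ F, AnalyticAt ℂ F (φ v) ∧ f =ᶠ[𝓝 v] F ∘ φ

/-- reduced Stein space: holomorphically separable and holomorphically convex -/
def IsStein {X : Type} [TopologicalSpace X] (O : X → (X → ℂ) → Prop) : Prop :=
  T2Space X ∧ SecondCountableTopology X ∧ IsReduced O ∧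
  (∀ x y : X, x ≠ y → ∃ f, (∀ v, O v f) ∧ f x ≠ f y) ∧
  ∀ K : Set X, IsCompact K →
    IsCompact {y | ∀ f, (∀ v, O v f) → ∀ C : ℝ, (∀ x ∈ K, ‖f x‖ ≤ C) → ‖f y‖ ≤ C}

/-- locally Stein algebra -/
def LocStein (A : Type) [CommRing A] [Algebra ℂ A] [TopologicalSpace A] : Prop :=
  ∃ Y : Set (characterSpace ℂ A), IsOpen Y ∧ Y.Nonempty ∧ ∃ O : Y → (Y → ℂ) → Prop, IsStein O ∧
    (∀ (a : A) (v : Y), O v fun χ => χ.1 a) ∧
    ∀ f, (∀ v, O v f) → ∀ K : Set Y, IsCompact K → ∀ ε > 0, ∃ a : A, ∀ χ ∈ K, ‖χ.1 a - f χ‖ < ε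

section disc
variable {X : Type} [TopologicalSpace X] {j : X → ℂ}

def Od (j : X → ℂ) (v : X) (f : X → ℂ) : Prop :=
  ∃ F : (Fin 1 → ℂ) → ℂ, AnalyticAt ℂ F (fun _ => j v) ∧ f =ᶠ[𝓝 v] F ∘ fun x _ => j x

theorem od_of (hr : range j = ball 0 1) {G : ℂ → ℂ} (hG : DifferentiableOn ℂ G (ball 0 1))
    (v : X) : Od j v fun x => G (j x) := by
  refine ⟨fun z => G (z 0), ?_, EventuallyEq.rfl⟩
  have h1 : AnalyticAt ℂ G (j v) := hG.analyticAt (isOpen_ball.mem_nhds (hr ▸ mem_range_self v))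
  exact AnalyticAt.comp (f := fun z : Fin 1 → ℂ => z 0) h1
    ((ContinuousLinearMap.proj (R := ℂ) (φ := fun _ : Fin 1 => ℂ) 0).analyticAt _)

theorem of_od (hj : IsOpenEmbedding j) (hr : range j = ball 0 1) {f : X → ℂ} (hf : ∀ v, Od j v f) :
    ∃ G : ℂ → ℂ, DifferentiableOn ℂ G (ball 0 1) ∧ ∀ x, f x = G (j x) := by
  refine ⟨Function.extend j f 0, fun w hw => ?_, fun x => (hj.injective.extend_apply _ _ x).symm⟩
  obtain ⟨v, rfl⟩ : w ∈ range j := hr ▸ hw
  obtain ⟨F, h1, h2⟩ := hf v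
  have h3 : DifferentiableAt ℂ (fun w : ℂ => F fun _ => w) (j v) :=
    DifferentiableAt.comp (f := fun w : ℂ => fun _ : Fin 1 => w) _ h1.differentiableAt
      (differentiableAt_pi.2 fun _ => differentiableAt_id)
  refine (h3.congr_of_eventuallyEq ?_).differentiableWithinAt
  rw [← hj.map_nhds_eq, EventuallyEq, eventually_map]
  filter_upwards [h2] with x hx
  simpa [hj.injective.extend_apply] using hx

theorem stein_od (hj : IsOpenEmbedding j) (hr : range j = ball 0 1) : IsStein (Od j) := by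
  have he : IsEmbedding fun x (_ : Fin 1) => j x :=
    (Homeomorph.funUnique (Fin 1) ℂ).symm.isEmbedding.comp hj.isEmbedding
  refine ⟨hj.isEmbedding.t2Space, hj.isEmbedding.secondCountableTopology, fun y => ⟨univ,
    isOpen_univ, trivial, 1, 0, fun x _ => j x, {z | z 0 ∈ ball 0 1}, Fin.elim0,
    isOpen_ball.preimage (continuous_apply 0), fun i => i.elim0,
    he.comp IsEmbedding.subtypeVal, ?_, fun v _ f => Iff.rfl⟩, fun x y h => ⟨j, od_of hr
      differentiableOn_id, fun e => h (hj.injective e)⟩, fun K hK => ?_⟩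
  · ext z
    simp only [image_univ, mem_range, mem_ofPred_eq, IsEmpty.forall_iff, and_true, ← hr]
    constructor
    · rintro ⟨x, rfl⟩; exact ⟨x, rfl⟩
    · rintro ⟨x, hx⟩; exact ⟨x, funext fun i => by rw [hx, Subsingleton.elim i 0]⟩
  · obtain ⟨r, h1, h2⟩ := exists_lt_subset_ball (hK.image hj.continuous).isClosed
      (hr ▸ image_subset_range _ _ : j '' K ⊆ ball 0 1)
    refine (hj.isInducing.isCompact_preimage' (isCompact_closedBall 0 r)
      (hr ▸ closedBall_subset_ball h1)).of_isClosed_subset ?_ fun y hy => ?_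
    · simp only [ofPred_forall]
      refine isClosed_iInter fun f => isClosed_iInter fun hf => isClosed_iInter fun C =>
        isClosed_iInter fun _ => isClosed_le (Continuous.norm ?_) continuous_const
      obtain ⟨G, g1, g2⟩ := of_od hj hr hf
      rw [show f = G ∘ j from funext g2]
      exact g1.continuousOn.comp_continuous hj.continuous fun x => hr ▸ mem_range_self x
    · simpa using hy j (od_of hr differentiableOn_id) r fun x hx => by
        simpa using (mem_ball_zero_iff.1 (h2 (mem_image_of_mem j hx))).le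
end disc

noncomputable def mkc {R : Type} [CommRing R] [Algebra ℂ R] [TopologicalSpace R] (ψ : R →ₐ[ℂ] ℂ)
    (h : Continuous ψ) : characterSpace ℂ R :=
  ⟨{ toFun := ψ, map_add' := map_add ψ, map_smul' := map_smul ψ, cont := h }, by
    rw [CharacterSpace.eq_set_map_one_map_mul]; exact ⟨map_one ψ, map_mul ψ⟩⟩

theorem cont_char {R T : Type} [CommRing R] [Algebra ℂ R] [TopologicalSpace R]
    [TopologicalSpace T] (ψ : T → characterSpace ℂ R) (h : ∀ x, Continuous fun t => ψ t x) :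
    Continuous ψ :=
  continuous_induced_rng.2 (continuous_of_continuous_eval h)

theorem cont_ev {R : Type} [CommRing R] [Algebra ℂ R] [TopologicalSpace R] (x : R) :
    Continuous fun χ : characterSpace ℂ R => χ x := (gelfandTransform ℂ R x).continuous

abbrev D : Set ℂ := closedBall 0 1
noncomputable abbrev P : Subalgebra ℂ C(D, ℂ) := (polynomialFunctions D).topologicalClosure
noncomputable abbrev A := P × C(unitInterval, ℂ)

instance : CompleteSpace P := (Subalgebra.isClosed_topologicalClosure _).completeSpace_coe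

noncomputable def pol : Polynomial ℂ →ₐ[ℂ] P :=
  (Polynomial.toContinuousMapOnAlgHom D).codRestrict P fun q =>
    Subalgebra.le_topologicalClosure _ ⟨q, trivial, rfl⟩

theorem dense_pol : DenseRange pol := by
  rw [DenseRange, Subtype.dense_iff, ← range_comp]
  intro x hx
  have : x ∈ closure (polynomialFunctions D : Set C(D, ℂ)) := hx
  rwa [polynomialFunctions_coe] at this

theorem char_eq (χ : characterSpace ℂ A) (h : χ (1, 0) ≠ 0) (ha : χ (pol .X, 0) ∈ D) (x : A) :
    χ x = x.1.1 ⟨_, ha⟩ := by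
  have h1 : χ (1, 0) = 1 := mul_left_cancel₀ h (by rw [← map_mul]; simp)
  have h2 : χ x = χ (x.1, 0) := by
    rw [← mul_one (χ x), ← h1, ← map_mul]; congr 1; ext <;> simp
  rw [h2]
  refine dense_pol.induction_on (p := fun p : P => χ (p, 0) = p.1 ⟨_, ha⟩) x.1
    (isClosed_eq (by fun_prop) (by fun_prop)) fun q => ?_
  show _ = q.eval (χ (pol .X, 0))
  induction q using Polynomial.induction_on with
  | C c =>
    have : ((pol (.C c), 0) : A) = c • ((1, 0) : A) := by
      rw [show pol (.C c) = algebraMap ℂ P c from pol.commutes c, Algebra.algebraMap_eq_smul_one]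
      refine Prod.ext rfl ?_
      ext t
      exact (mul_zero c).symm
    rw [this, map_smul, h1]; simp
  | add p q hp hq =>
    have : ((pol (p + q), 0) : A) = (pol p, 0) + (pol q, 0) := by simp
    rw [this, map_add, hp, hq, Polynomial.eval_add]
  | monomial n c ih =>
    have : ((pol (.C c * .X ^ (n + 1)), 0) : A) = (pol (.C c * .X ^ n), 0) * (pol .X, 0) := by
      rw [pow_succ, ← mul_assoc, map_mul pol _ .X]; simp
    rw [this, map_mul, ih]; simp [pow_succ, mul_assoc]

theorem hol_P (p : P) : DifferentiableOn ℂ (Function.extend Subtype.val p.1 0) (ball 0 1) := by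
  refine dense_pol.induction_on
    (p := fun p : P => DifferentiableOn ℂ (Function.extend Subtype.val p.1 0) (ball 0 1)) p ?_
    fun q => ?_
  · refine IsSeqClosed.isClosed fun u p hu hp => ?_
    refine TendstoLocallyUniformlyOn.differentiableOn (φ := atTop)
      (F := fun n => Function.extend Subtype.val (u n).1 0) ?_ (.of_forall hu) isOpen_ball
    refine TendstoUniformlyOn.tendstoLocallyUniformlyOn (tendstoUniformlyOn_iff.2 fun ε hε => ?_)
    filter_upwards [Metric.tendsto_nhds.1 hp ε hε] with n hn w hw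
    obtain ⟨w, rfl⟩ : ∃ w' : D, w'.1 = w := ⟨⟨w, ball_subset_closedBall hw⟩, rfl⟩
    rw [Subtype.val_injective.extend_apply, Subtype.val_injective.extend_apply, dist_comm]
    exact (ContinuousMap.dist_apply_le_dist w).trans_lt hn
  · refine q.differentiable.differentiableOn.congr fun w hw => ?_
    obtain ⟨w, rfl⟩ : ∃ w' : D, w'.1 = w := ⟨⟨w, ball_subset_closedBall hw⟩, rfl⟩
    rw [Subtype.val_injective.extend_apply]; rfl

noncomputable def evA (a : D) : characterSpace ℂ A :=
  mkc ((ContinuousMap.evalAlgHom ℂ ℂ a).comp (P.val.comp (AlgHom.fst ℂ _ _)))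
    (by fun_prop : Continuous fun x : A => x.1.1 a)

theorem evA_X (a : D) : evA a (pol .X, 0) = a.1 := Polynomial.eval_X

theorem locA : LocStein A := by
  let Y : Set (characterSpace ℂ A) := {χ | χ (1, 0) ≠ 0 ∧ χ (pol .X, 0) ∈ ball (0 : ℂ) 1}
  have hY : IsOpen Y := IsOpen.and ((isOpen_ne (x := (0 : ℂ))).preimage (cont_ev ((1, 0) : A)))
    ((isOpen_ball (x := (0 : ℂ)) (ε := 1)).preimage (cont_ev ((pol .X, 0) : A)))
  let h : Y ≃ₜ ball (0 : ℂ) 1 :=
    { toFun := fun χ => ⟨χ.1 (pol .X, 0), χ.2.2⟩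
      invFun := fun a => ⟨evA ⟨a.1, ball_subset_closedBall a.2⟩,
        (one_ne_zero : (1 : ℂ) ≠ 0), by rw [evA_X]; exact a.2⟩
      left_inv := fun χ => Subtype.ext (CharacterSpace.ext fun x =>
        (char_eq χ.1 χ.2.1 (ball_subset_closedBall χ.2.2) x).symm)
      right_inv := fun a => Subtype.ext (evA_X _)
      continuous_toFun := ((cont_ev _).comp continuous_subtype_val).subtype_mk _
      continuous_invFun := (cont_char _ fun x : A => x.1.1.continuous.comp
        (continuous_subtype_val.subtype_mk _)).subtype_mk _ }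
  let j : Y → ℂ := fun χ => χ.1 (pol .X, 0)
  have hj : IsOpenEmbedding j := isOpen_ball.isOpenEmbedding_subtypeVal.comp h.isOpenEmbedding
  have hr : range j = ball 0 1 := by
    rw [show j = Subtype.val ∘ h from rfl, range_comp, h.surjective.range_eq, image_univ,
      Subtype.range_coe]
  refine ⟨Y, hY, ⟨_, (h.symm ⟨0, by simp⟩).2⟩, Od j, stein_od hj hr, fun a v => ?_,
    fun f hf K hK ε hε => ?_⟩
  · have := od_of hr (hol_P a.1) v
    rwa [show (fun x => Function.extend Subtype.val a.1.1 0 (j x)) = fun χ : Y => χ.1 a from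
      funext fun χ => ?_] at this
    rw [char_eq χ.1 χ.2.1 (ball_subset_closedBall χ.2.2)]
    exact Subtype.val_injective.extend_apply _ _ (⟨j χ, ball_subset_closedBall χ.2.2⟩ : D)
  · obtain ⟨G, g1, g2⟩ := of_od hj hr hf
    obtain ⟨r, h1, h2⟩ := exists_lt_subset_ball (hK.image hj.continuous).isClosed
      (hr ▸ image_subset_range _ _ : j '' K ⊆ ball 0 1)
    obtain ⟨R, k1, k2⟩ := exists_between (show r.toNNReal < 1 by simpa)
    have hp := (g1.mono (closedBall_subset_ball (by exact_mod_cast k2) :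
      closedBall (0 : ℂ) (R : ℝ) ⊆ ball 0 1)).hasFPowerSeriesOnBall (zero_le.trans_lt k1)
    obtain ⟨n, hn⟩ := (tendstoUniformlyOn_iff.1 (hp.tendstoUniformlyOn (r' := r.toNNReal)
      (by exact_mod_cast k1)) ε hε).exists
    refine ⟨∑ k ∈ Finset.range n, (cauchyPowerSeries G 0 R).coeff k • (pol .X, 0) ^ k,
      fun χ hχ => ?_⟩
    have := hn (j χ) (ball_subset_ball (Real.le_coe_toNNReal r) (h2 (mem_image_of_mem j hχ)))
    rw [dist_comm, dist_eq_norm, zero_add, ← g2] at this
    simp only [map_sum, map_smul, map_pow]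
    simpa [FormalMultilinearSeries.partialSum, j, mul_comm] using this

noncomputable def B : Subalgebra ℂ A := AlgHom.equalizer (AlgHom.fst ℂ _ _)
  ((Algebra.ofId ℂ P).comp ((ContinuousMap.evalAlgHom ℂ ℂ 0).comp (AlgHom.snd ℂ _ _)))

theorem closedB : IsClosed (B : Set A) :=
  isClosed_eq continuous_fst ((continuous_algebraMap ℂ P).comp (by fun_prop :
    Continuous fun x : A => x.2 0))

noncomputable def sec : C(unitInterval, ℂ) →ₐ[ℂ] B :=
  (((Algebra.ofId ℂ P).comp (ContinuousMap.evalAlgHom ℂ ℂ 0)).prod (AlgHom.id ℂ _)).codRestrict B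
    fun _ => rfl

noncomputable def E (t : unitInterval) : characterSpace ℂ B :=
  mkc ((ContinuousMap.evalAlgHom ℂ ℂ t).comp ((AlgHom.snd ℂ _ _).comp B.val))
    (by fun_prop : Continuous fun x : B => x.1.2 t)

theorem notB : ¬ LocStein B := by
  rintro ⟨Y, hY, ⟨χ, hχ⟩, O, ⟨-, -, hO, -⟩, hh, -⟩
  have hE : Continuous E := cont_char _ fun x : B => x.1.2.continuous
  obtain ⟨t0, ht⟩ := (CharacterSpace.continuousMapEval_bijective unitInterval ℂ).2
    (CharacterSpace.equivAlgHom.symm ((CharacterSpace.toAlgHom χ).comp sec))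
  obtain rfl : E t0 = χ := CharacterSpace.ext fun x => by
    have h1 : x = sec x.1.2 := Subtype.ext (Prod.ext x.2 rfl)
    have h2 : x.1.2 t0 = χ (sec x.1.2) := DFunLike.congr_fun ht x.1.2
    rw [← h1] at h2; exact h2
  obtain ⟨U, hU, hy, n, k, φ, -, -, -, -, he, -, hg⟩ := hO ⟨_, hχ⟩
  obtain ⟨s, hs, hc, hsub⟩ := exists_mem_nhds_isClosed_subset
    (((hY.isOpenMap_subtype_val U hU).preimage hE).mem_nhds (x := t0) ⟨_, hy, rfl⟩)
  have m1 : ∀ t : s, E t.1 ∈ Y := fun t => by obtain ⟨u, -, e⟩ := hsub t.2; exact e ▸ u.2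
  have m2 : ∀ t : s, (⟨_, m1 t⟩ : Y) ∈ U := fun t => by
    obtain ⟨u, h, e⟩ := hsub t.2; rwa [show (⟨_, m1 t⟩ : Y) = u from Subtype.ext e.symm]
  let L : s → Y := fun t => ⟨_, m1 t⟩
  have hL : Continuous L := (hE.comp continuous_subtype_val).subtype_mk _
  have hφ : Continuous fun t => φ (L t) := he.continuous.comp (hL.subtype_mk m2)
  let a : s := ⟨t0, mem_of_mem_nhds hs⟩
  have hq : Continuous fun t => √‖φ (L t) - φ (L a)‖ := (hφ.sub continuous_const).norm.sqrt
  obtain ⟨f, hf⟩ := ContinuousMap.exists_restrict_eq hc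
    (⟨fun t => ((√‖φ (L t) - φ (L a)‖ : ℝ) : ℂ), Complex.continuous_ofReal.comp hq⟩ : C(s, ℂ))
  have hf' : ∀ t : s, f t.1 = ((√‖φ (L t) - φ (L a)‖ : ℝ) : ℂ) := fun t => DFunLike.congr_fun hf t
  obtain ⟨F, f1, f2⟩ := (hg (L a) hy _).1 (hh (sec f) _)
  have f3 : ∀ᶠ t in 𝓝 a, f t.1 = F (φ (L t)) := (hL.tendsto a).eventually f2
  obtain ⟨C, hC, f4⟩ := (f1.differentiableAt.isBigO_sub.comp_tendsto (hφ.tendsto a)).exists_pos
  have f5 : ∀ᶠ t in 𝓝 a, √‖φ (L t) - φ (L a)‖ < C⁻¹ :=
    (hq.tendsto' a 0 (by simp)).eventually (gt_mem_nhds (inv_pos.2 hC))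
  have f6 : ∀ᶠ t in 𝓝 a, t.1 = t0 := by
    filter_upwards [f3, f4.bound, f5] with t h3 h4 h5
    simp only [Function.comp, ← h3, ← f3.self_of_nhds, hf', sub_self, norm_zero, Real.sqrt_zero,
      Complex.ofReal_zero, sub_zero, Complex.norm_real, Real.norm_eq_abs,
      abs_of_nonneg (Real.sqrt_nonneg _)] at h4
    have h6 : ‖φ (L t) - φ (L a)‖ = 0 := by
      have h7 := Real.mul_self_sqrt (norm_nonneg (φ (L t) - φ (L a)))
      have h8 := Real.sqrt_nonneg ‖φ (L t) - φ (L a)‖
      have h9 : C * √‖φ (L t) - φ (L a)‖ < 1 := by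
        rw [← mul_inv_cancel₀ hC.ne']; exact mul_lt_mul_of_pos_left h5 hC
      rw [← h7] at h4
      have : √‖φ (L t) - φ (L a)‖ = 0 := by
        rw [Real.sqrt_mul_self h8] at h4
        nlinarith
      rw [← h7, this, mul_zero]
    have h7 : L t = L a := congrArg Subtype.val
      (he.injective (a₁ := ⟨_, m2 t⟩) (a₂ := ⟨_, m2 a⟩) (sub_eq_zero.1 (norm_eq_zero.1 h6)))
    have h8 := DFunLike.congr_fun (congrArg Subtype.val h7)
      (sec ⟨fun t => ((t : ℝ) : ℂ), by fun_prop⟩)
    exact Subtype.ext (Complex.ofReal_injective h8)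
  have f7 : ∀ᶠ t in 𝓝 t0, t = t0 := by
    rw [← nhdsWithin_eq_nhds.2 hs, ← map_nhds_subtype_val a]; exact f6
  obtain ⟨t, h1, h2⟩ := ((f7.filter_mono nhdsWithin_le_nhds).and
    (self_mem_nhdsWithin (s := {t0}ᶜ))).exists
  exact h2 h1

theorem result : ∃ (A : Type) (_ : NormedCommRing A) (_ : NormedAlgebra ℂ A),
    CompleteSpace A ∧ Nontrivial A ∧ LocStein A ∧
    ∃ B : Subalgebra ℂ A, IsClosed (B : Set A) ∧ ¬ LocStein B :=
  ⟨A, inferInstance, inferInstance, inferInstance, inferInstance, locA, B, closedB, notB⟩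

end Pool.Agent.Results.MP_591444_an.NotStein
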